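import Mathlib

/-!
A compact set containing uncountably many small affine copies of every finite set.
-/

open Set Filter Topology

namespace Pool.Agent.MP_701998_an.H41

/-- the compact set -/
def K : Set ℝ :=
  {x | x ∈ Icc (0 : ℝ) 1 ∧
    ∀ k : ℕ, x - 1 / ((k : ℝ) + 1) ≤ ‖(((k.factorial : ℝ) * x : ℝ) : UnitAddCircle)‖}

lemma continuous_nrm (N y : ℝ) : Continuous fun x : ℝ => ‖((N * x - y : ℝ) : UnitAddCircle)‖ := by
  have : Continuous fun x : ℝ => ((N * x - y : ℝ) : UnitAddCircle) :=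
    (AddCircle.continuous_mk' 1).comp (by fun_prop)
  exact this.norm

lemma isClosed_K : IsClosed K := by
  have : K = Icc (0 : ℝ) 1 ∩ ⋂ k : ℕ, {x : ℝ | x - 1 / ((k : ℝ) + 1) ≤
      ‖(((k.factorial : ℝ) * x - 0 : ℝ) : UnitAddCircle)‖} := by
    ext x; simp [K]
  rw [this]
  exact isClosed_Icc.inter (isClosed_iInter fun k =>
    isClosed_le (by fun_prop) (continuous_nrm _ _))

lemma isCompact_K : IsCompact K :=
  isCompact_Icc.of_isClosed_subset isClosed_K (fun _ hx => hx.1)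

lemma pigeon (n : ℕ) (Y : Finset ℝ) (hY : Y.card ≤ n) (ρ : ℝ) (hρ : 0 < ρ)
    (hn : 4 * n * ρ ≤ 1) :
    ∃ u ∈ Icc (0 : ℝ) (1 / 2), ∀ y ∈ Y, ρ ≤ ‖((u - y : ℝ) : UnitAddCircle)‖ := by
  classical
  by_contra hcon
  push Not at hcon
  have hmem : ∀ j : Fin (n + 1), ((j : ℕ) : ℝ) * (2 * ρ) ∈ Icc (0 : ℝ) (1 / 2) := by
    intro j
    have : ((j : ℕ) : ℝ) ≤ n := by exact_mod_cast Nat.lt_succ_iff.mp j.2
    constructor
    · positivity
    · nlinarith
  choose f hf hlt using fun j : Fin (n + 1) => hcon _ (hmem j)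
  obtain ⟨i, -, j, -, hij, hfe⟩ := Finset.exists_ne_map_eq_of_card_lt_of_maps_to
    (s := (Finset.univ : Finset (Fin (n + 1)))) (t := Y) (by simpa using Nat.lt_succ_of_le hY)
    (f := f) (fun j _ => hf j)
  have h1 := hlt i
  have h2 := hlt j
  rw [hfe] at h1
  have h3 : ‖((((i : ℕ) : ℝ) * (2 * ρ) - ((j : ℕ) : ℝ) * (2 * ρ) : ℝ) : UnitAddCircle)‖ <
      2 * ρ := by
    have e : ((((i : ℕ) : ℝ) * (2 * ρ) - ((j : ℕ) : ℝ) * (2 * ρ) : ℝ) : UnitAddCircle) =
        ((((i : ℕ) : ℝ) * (2 * ρ) - f j : ℝ) : UnitAddCircle) -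
        ((((j : ℕ) : ℝ) * (2 * ρ) - f j : ℝ) : UnitAddCircle) := by
      rw [← AddCircle.coe_sub]; congr 1; ring
    rw [e]
    have := norm_sub_le ((((i : ℕ) : ℝ) * (2 * ρ) - f j : ℝ) : UnitAddCircle)
      ((((j : ℕ) : ℝ) * (2 * ρ) - f j : ℝ) : UnitAddCircle)
    linarith
  have hi := hmem i
  have hj := hmem j
  rw [(AddCircle.norm_coe_eq_abs_iff 1 one_ne_zero).mpr
    (by rw [abs_one, abs_le]; constructor <;> linarith [hi.1, hi.2, hj.1, hj.2])] at h3
  have hne : ((i : ℕ) : ℤ) - ((j : ℕ) : ℤ) ≠ 0 := by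
    intro h; apply hij; ext; omega
  have h4 : (1 : ℝ) ≤ |((i : ℕ) : ℝ) - ((j : ℕ) : ℝ)| := by
    have := Int.one_le_abs hne
    exact_mod_cast this
  rw [← sub_mul, abs_mul, abs_of_pos (by positivity : (0 : ℝ) < 2 * ρ)] at h3
  nlinarith

lemma norm_coe_le (x : ℝ) : ‖(x : UnitAddCircle)‖ ≤ |x| := by
  simpa using QuotientAddGroup.norm_mk_le_norm (S := AddSubgroup.zmultiples (1 : ℝ)) (m := x)

lemma nested (n M : ℕ) (hM : 0 < M) (hnM : 8 * n ≤ M) (α : ℝ) (Y : ℕ → Finset ℝ)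
    (hY : ∀ k, (Y k).card ≤ n) :
    ∃ a ∈ Icc α (α + 1 / (M.factorial : ℝ)), ∀ k, M ≤ k → ∀ y ∈ Y k,
      1 / (M : ℝ) ≤ ‖(((k.factorial : ℝ) * a - y : ℝ) : UnitAddCircle)‖ := by
  classical
  let A : ℕ → Set ℝ := fun j => {a | a ∈ Icc α (α + 1 / (M.factorial : ℝ)) ∧
    ∀ k, M ≤ k → k < M + j → ∀ y ∈ Y k,
      1 / (M : ℝ) ≤ ‖(((k.factorial : ℝ) * a - y : ℝ) : UnitAddCircle)‖}
  have hMr : (0 : ℝ) < M := by exact_mod_cast hM
  have hclosed : ∀ j, IsClosed (A j) := by
    intro j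
    have : A j = Icc α (α + 1 / (M.factorial : ℝ)) ∩ ⋂ k, ⋂ (_ : M ≤ k), ⋂ (_ : k < M + j),
        ⋂ y ∈ Y k, {a : ℝ | 1 / (M : ℝ) ≤ ‖(((k.factorial : ℝ) * a - y : ℝ) : UnitAddCircle)‖} := by
      ext a; simp only [A, mem_inter_iff, mem_iInter, mem_ofPred_eq]
    rw [this]
    exact isClosed_Icc.inter (isClosed_iInter fun k => isClosed_iInter fun _ =>
      isClosed_iInter fun _ => isClosed_iInter fun y => isClosed_iInter fun _ =>
      isClosed_le continuous_const (continuous_nrm _ _))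
  have hint : ∀ j, ∃ c, Icc c (c + 1 / ((M + j).factorial : ℝ)) ⊆ A j := by
    intro j
    induction j with
    | zero => exact ⟨α, fun a ha => ⟨ha, fun k h1 h2 => by omega⟩⟩
    | succ j ih =>
      obtain ⟨c, hc⟩ := ih
      set N : ℝ := ((M + j).factorial : ℝ) with hN
      have hNpos : 0 < N := by rw [hN]; exact_mod_cast Nat.factorial_pos _
      have hnM' : (8 : ℝ) * n ≤ M := by exact_mod_cast hnM
      obtain ⟨u, hu, hu'⟩ := pigeon n ((Y (M + j)).image (fun y => y - N * c))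
        (Finset.card_image_le.trans (hY _)) (2 / M) (by positivity)
        (by rw [← mul_div_assoc, div_le_one hMr]; linarith)
      have hfac : (((M + (j + 1)).factorial : ℕ) : ℝ) = ((M : ℝ) + j + 1) * N := by
        rw [← add_assoc, Nat.factorial_succ]; push_cast; ring
      have hM1 : (1 : ℝ) ≤ M := by exact_mod_cast hM
      have hj0 : (0 : ℝ) ≤ j := by positivity
      refine ⟨c + u / N, fun a ha => ?_⟩
      rw [hfac] at ha
      have hw0 : 0 ≤ N * (a - (c + u / N)) := mul_nonneg hNpos.le (by linarith [ha.1])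
      have hw1 : N * (a - (c + u / N)) ≤ 1 / ((M : ℝ) + j + 1) := by
        have h1 : a - (c + u / N) ≤ 1 / (((M : ℝ) + j + 1) * N) := by linarith [ha.2]
        have h2 := mul_le_mul_of_nonneg_left h1 hNpos.le
        have h3 : N * (1 / (((M : ℝ) + j + 1) * N)) = 1 / ((M : ℝ) + j + 1) := by
          field_simp
        linarith
      have hw2 : 1 / ((M : ℝ) + j + 1) ≤ 1 / 2 :=
        one_div_le_one_div_of_le (by norm_num) (by linarith)
      have hw3 : 1 / ((M : ℝ) + j + 1) ≤ 1 / M :=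
        one_div_le_one_div_of_le hMr (by linarith)
      have hNu : N * (u / N) = u := by field_simp
      have haA : a ∈ A j := by
        apply hc
        constructor
        · have : 0 ≤ u / N := div_nonneg hu.1 hNpos.le
          linarith [ha.1]
        · have h1 : N * (a - c) ≤ 1 := by nlinarith [hu.2]
          have h2 : a - c ≤ 1 / N := by rw [le_div_iff₀ hNpos]; linarith
          linarith
      refine ⟨haA.1, fun k h1 h2 y hy => ?_⟩
      rcases Nat.lt_or_ge k (M + j) with h3 | h3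
      · exact haA.2 k h1 h3 y hy
      · have hk : k = M + j := by omega
        subst hk
        have h4 := hu' (y - N * c) (Finset.mem_image_of_mem _ hy)
        have e : ((u - (y - N * c) : ℝ) : UnitAddCircle) =
            ((N * a - y : ℝ) : UnitAddCircle) - ((N * (a - (c + u / N)) : ℝ) : UnitAddCircle) := by
          rw [← AddCircle.coe_sub]; congr 1; linarith
        rw [e] at h4
        have h5 := norm_sub_le ((N * a - y : ℝ) : UnitAddCircle)
          ((N * (a - (c + u / N)) : ℝ) : UnitAddCircle)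
        have h6 := norm_coe_le (N * (a - (c + u / N)))
        rw [abs_of_nonneg hw0] at h6
        have h7 : (2 : ℝ) / M = 1 / M + 1 / M := by ring
        linarith
  have hne : ∀ j, (A j).Nonempty := by
    intro j
    obtain ⟨c, hc⟩ := hint j
    exact ⟨c, hc ⟨le_rfl, le_add_of_nonneg_right (by positivity)⟩⟩
  obtain ⟨a, ha⟩ := IsCompact.nonempty_iInter_of_sequence_nonempty_isCompact_isClosed A
    (fun j a ha => ⟨ha.1, fun k h1 h2 => ha.2 k h1 (by omega)⟩) hne
    (isCompact_Icc.of_isClosed_subset (hclosed 0) (fun _ hx => hx.1)) hclosed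
  rw [mem_iInter] at ha
  exact ⟨a, (ha 0).1, fun k hk y hy => (ha (k + 1)).2 k hk (by omega) y hy⟩

lemma patterns (V : Set ℝ) (hV : V.Countable) (F : Finset ℝ) :
    ∃ a b : ℝ, b ≠ 0 ∧ ∀ x ∈ F, a + b * x ∈ K \ V := by
  classical
  obtain ⟨B, hB, hFB⟩ : ∃ B : ℝ, 0 < B ∧ ∀ x ∈ F, |x| ≤ B := by
    refine ⟨1 + ∑ x ∈ F, |x|, by positivity, fun x hx => ?_⟩
    have := Finset.single_le_sum (f := fun x : ℝ => |x|) (fun _ _ => abs_nonneg _) hx
    linarith
  set n := F.card + 1 with hn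
  set M := 8 * n with hM
  have hM8 : 8 ≤ M := by omega
  have hMr : (8 : ℝ) ≤ M := by exact_mod_cast hM8
  set b : ℝ := 1 / (4 * M * B) with hb
  have hbpos : 0 < b := by positivity
  have hW : (⋃ x ∈ F, (fun v => v - b * x) '' V).Countable :=
    (F.countable_toSet).biUnion fun x _ => hV.image _
  obtain ⟨s, hs⟩ := Set.countable_iff_exists_subset_range.mp hW
  obtain ⟨a, ha, ha'⟩ := nested n M (by omega) le_rfl (1 / (4 * M))
    (fun k => insert ((k.factorial : ℝ) * s (k - M))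
      (F.image fun x => -((k.factorial : ℝ) * (b * x))))
    (fun k => (Finset.card_insert_le _ _).trans (Nat.succ_le_succ Finset.card_image_le))
  have hfac : 1 / (M.factorial : ℝ) ≤ 1 / (2 * M) := by
    apply one_div_le_one_div_of_le (by positivity)
    obtain ⟨m, hm⟩ : ∃ m, M = m + 1 := ⟨M - 1, by omega⟩
    have h1 : 2 * M ≤ M.factorial := by
      rw [hm, Nat.factorial_succ]
      have := Nat.self_le_factorial m
      nlinarith [show 2 ≤ m by omega]
    exact_mod_cast h1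
  refine ⟨a, b, hbpos.ne', fun x hx => ⟨?_, fun hxV => ?_⟩⟩
  · have hbx : |b * x| ≤ 1 / (4 * M) := by
      rw [abs_mul, abs_of_pos hbpos]
      calc b * |x| ≤ b * B := mul_le_mul_of_nonneg_left (hFB x hx) hbpos.le
        _ = 1 / (4 * M) := by rw [hb]; field_simp
    rw [abs_le] at hbx
    have e1 : (1 : ℝ) / M = 1 / (4 * M) + 1 / (2 * M) + 1 / (4 * M) := by field_simp; ring
    have hup : a + b * x ≤ 1 / M := by linarith [ha.2, hbx.2]
    have h1M : (1 : ℝ) / M ≤ 1 := by rw [div_le_one (by linarith)]; linarith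
    refine ⟨⟨by linarith [ha.1, hbx.1], by linarith⟩, fun k => ?_⟩
    rcases Nat.lt_or_ge k M with hk | hk
    · have h1 : ((k : ℝ) + 1) ≤ M := by exact_mod_cast hk
      have h2 : (1 : ℝ) / M ≤ 1 / ((k : ℝ) + 1) := one_div_le_one_div_of_le (by positivity) h1
      linarith [norm_nonneg (((k.factorial : ℝ) * (a + b * x) : ℝ) : UnitAddCircle)]
    · have h1 := ha' k hk (-((k.factorial : ℝ) * (b * x)))
        (Finset.mem_insert_of_mem (Finset.mem_image_of_mem _ hx))
      rw [show (k.factorial : ℝ) * a - -((k.factorial : ℝ) * (b * x)) =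
        (k.factorial : ℝ) * (a + b * x) by ring] at h1
      have h2 : (0 : ℝ) < 1 / ((k : ℝ) + 1) := by positivity
      linarith
  · obtain ⟨j, hj⟩ := hs (show a ∈ ⋃ x ∈ F, (fun v => v - b * x) '' V from
      mem_biUnion hx ⟨a + b * x, hxV, by ring⟩)
    have h1 := ha' (M + j) (by omega) _ (Finset.mem_insert_self _ _)
    rw [Nat.add_sub_cancel_left, hj, sub_self] at h1
    have h2 : (0 : ℝ) < 1 / M := by positivity
    rw [AddCircle.coe_zero, norm_zero] at h1
    linarith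

end Pool.Agent.MP_701998_an.H41
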