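import Mathlib
import Pool.Agent.MP_701998_an.H41.Patterns

/-!
No non-zero finite measure carried by `K` has a Fourier transform tending to zero.
-/

open Set Filter Topology MeasureTheory Complex
open scoped Real

namespace Pool.Agent.MP_701998_an.H41

lemma tendsto_of_fourier {T : ℝ} [Fact (0 < T)] {ι : Type*} (l : Filter ι)
    (L : ι → C(AddCircle T, ℂ) →ₗ[ℂ] ℂ) (M : ℝ) (hM : 0 ≤ M) (hL : ∀ i f, ‖L i f‖ ≤ M * ‖f‖)
    (h : ∀ n, Tendsto (fun i => L i (fourier n)) l (𝓝 0)) (f : C(AddCircle T, ℂ)) :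
    Tendsto (fun i => L i f) l (𝓝 0) := by
  have hspan : ∀ g ∈ Submodule.span ℂ (range (@fourier T)),
      Tendsto (fun i => L i g) l (𝓝 0) := by
    intro g hg
    induction hg using Submodule.span_induction with
    | mem x hx => obtain ⟨n, rfl⟩ := hx; exact h n
    | zero => simpa using tendsto_const_nhds
    | add x y _ _ hx hy => simpa using hx.add hy
    | smul c x _ hx => simpa using hx.const_mul c
  have hf : f ∈ closure ((Submodule.span ℂ (range (@fourier T)) : Submodule ℂ _) :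
      Set C(AddCircle T, ℂ)) := by
    rw [← Submodule.topologicalClosure_coe, span_fourier_closure_eq_top]; trivial
  rw [Metric.tendsto_nhds]
  intro ε hε
  obtain ⟨g, hg, hfg⟩ := Metric.mem_closure_iff.mp hf (ε / 2 / (M + 1)) (by positivity)
  filter_upwards [Metric.tendsto_nhds.mp (hspan g hg) (ε / 2) (by positivity)] with i hi
  rw [dist_zero_right] at hi ⊢
  have e : L i f = L i g + L i (f - g) := by rw [map_sub]; ring
  have h1 := hL i (f - g)
  rw [dist_eq_norm, lt_div_iff₀ (by positivity)] at hfg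
  have h2 := norm_add_le (L i g) (L i (f - g))
  rw [e]
  nlinarith [norm_nonneg (f - g)]

lemma continuous_coe_mul (T c : ℝ) : Continuous fun x : ℝ => ((c * x : ℝ) : AddCircle T) :=
  (AddCircle.continuous_mk' T).comp (by fun_prop)

lemma integrable_aux {T : ℝ} [Fact (0 < T)] (μ : Measure ℝ) [IsFiniteMeasure μ] (w : ℝ → ℂ)
    (hw : Continuous w) (B : ℝ) (hB : ∀ x, ‖w x‖ ≤ B) (c : ℝ) (f : C(AddCircle T, ℂ)) :
    Integrable (fun x : ℝ => w x * f ((c * x : ℝ) : AddCircle T)) μ := by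
  refine Integrable.of_bound (hw.mul (f.continuous.comp (continuous_coe_mul T c))).aestronglyMeasurable
    (B * ‖f‖) (Eventually.of_forall fun x => ?_)
  rw [norm_mul]
  exact mul_le_mul (hB x) (f.norm_coe_le_norm _) (norm_nonneg _) ((norm_nonneg _).trans (hB x))

/-- integration against a weight, after a dilation -/
noncomputable def Lmap {T : ℝ} [Fact (0 < T)] (μ : Measure ℝ) [IsFiniteMeasure μ] (w : ℝ → ℂ)
    (hw : Continuous w) (B : ℝ) (hB : ∀ x, ‖w x‖ ≤ B) (c : ℝ) : C(AddCircle T, ℂ) →ₗ[ℂ] ℂ where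
  toFun f := ∫ x, w x * f ((c * x : ℝ) : AddCircle T) ∂μ
  map_add' f g := by
    simp only [ContinuousMap.add_apply, mul_add]
    exact integral_add (integrable_aux μ w hw B hB c f) (integrable_aux μ w hw B hB c g)
  map_smul' a f := by
    simp only [ContinuousMap.smul_apply, smul_eq_mul, RingHom.id_apply]
    rw [← integral_const_mul]
    congr 1; ext x; ring

lemma Lmap_apply {T : ℝ} [Fact (0 < T)] (μ : Measure ℝ) [IsFiniteMeasure μ] (w : ℝ → ℂ)
    (hw : Continuous w) (B : ℝ) (hB : ∀ x, ‖w x‖ ≤ B) (c : ℝ) (f : C(AddCircle T, ℂ)) :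
    Lmap μ w hw B hB c f = ∫ x, w x * f ((c * x : ℝ) : AddCircle T) ∂μ := rfl

lemma Lmap_bound {T : ℝ} [Fact (0 < T)] (μ : Measure ℝ) [IsFiniteMeasure μ] (w : ℝ → ℂ)
    (hw : Continuous w) (B : ℝ) (hB : ∀ x, ‖w x‖ ≤ B) (c : ℝ) (f : C(AddCircle T, ℂ)) :
    ‖Lmap μ w hw B hB c f‖ ≤ (B * μ.real univ) * ‖f‖ := by
  rw [Lmap_apply]
  refine (norm_integral_le_of_norm_le_const (C := B * ‖f‖) (Eventually.of_forall fun x => ?_)).trans
    (le_of_eq (by ring))
  rw [norm_mul]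
  exact mul_le_mul (hB x) (f.norm_coe_le_norm _) (norm_nonneg _) ((norm_nonneg _).trans (hB x))

/-- haar mean as a linear map -/
noncomputable def mean : C(UnitAddCircle, ℂ) →ₗ[ℂ] ℂ where
  toFun g := ∫ y, g y ∂AddCircle.haarAddCircle
  map_add' f g := by
    simp only [ContinuousMap.add_apply]
    exact integral_add (f.continuous.integrable_of_hasCompactSupport (HasCompactSupport.of_compactSpace _))
      (g.continuous.integrable_of_hasCompactSupport (HasCompactSupport.of_compactSpace _))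
  map_smul' a f := by
    simp only [ContinuousMap.smul_apply, smul_eq_mul, RingHom.id_apply]
    rw [← integral_const_mul]

lemma mean_bound (g : C(UnitAddCircle, ℂ)) : ‖mean g‖ ≤ ‖g‖ := by
  refine (norm_integral_le_of_norm_le_const (C := ‖g‖)
    (Eventually.of_forall fun x => g.norm_coe_le_norm _)).trans (le_of_eq ?_)
  simp

lemma mean_fourier {n : ℤ} (hn : n ≠ 0) : mean (fourier n) = 0 :=
  integral_eq_zero_of_add_right_eq_neg (μ := AddCircle.haarAddCircle)
    (fourier_add_half_inv_index hn one_pos)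

lemma mean_fourier_zero : mean (fourier 0) = 1 := by
  change ∫ y, fourier 0 y ∂AddCircle.haarAddCircle = 1
  simp

instance fact_two : Fact ((0 : ℝ) < 2) := ⟨two_pos⟩

lemma norm_e (ξ x : ℝ) : ‖cexp (-(2 * π * I * x * ξ))‖ ≤ 1 := by
  rw [show (-(2 * π * I * x * ξ) : ℂ) = ((-(2 * π * x * ξ) : ℝ) : ℂ) * I by push_cast; ring,
    Complex.norm_exp_ofReal_mul_I]

lemma step1 (μ : Measure ℝ) [IsFiniteMeasure μ]
    (hμ : Tendsto (fun ξ : ℝ => ∫ x : ℝ, cexp (-(2 * π * I * x * ξ)) ∂μ) (cocompact ℝ) (𝓝 0))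
    (φ : C(AddCircle (2 : ℝ), ℂ)) :
    Tendsto (fun ξ : ℝ => ∫ x : ℝ, cexp (-(2 * π * I * x * ξ)) *
      φ ((1 * x : ℝ) : AddCircle (2 : ℝ)) ∂μ) (cocompact ℝ) (𝓝 0) := by
  refine tendsto_of_fourier (cocompact ℝ)
    (fun ξ : ℝ => Lmap μ (fun x : ℝ => cexp (-(2 * π * I * x * ξ))) (by fun_prop) 1 (norm_e ξ) 1)
    (1 * μ.real univ) (by positivity) (fun ξ f => Lmap_bound _ _ _ _ _ _ _) (fun n => ?_) φ
  have ht : Tendsto (fun ξ : ℝ => ξ + -((n : ℝ) / 2)) (cocompact ℝ) (cocompact ℝ) :=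
    (Homeomorph.addRight (-((n : ℝ) / 2))).isClosedEmbedding.tendsto_cocompact
  refine (hμ.comp ht).congr fun ξ => ?_
  simp only [Function.comp, Lmap_apply, fourier_coe_apply]
  congr 1; ext x
  rw [← Complex.exp_add]
  congr 1
  push_cast
  ring

lemma step2 (μ : Measure ℝ) [IsFiniteMeasure μ]
    (hμ : Tendsto (fun ξ : ℝ => ∫ x : ℝ, cexp (-(2 * π * I * x * ξ)) ∂μ) (cocompact ℝ) (𝓝 0))
    (φ : C(AddCircle (2 : ℝ), ℂ)) (g : C(UnitAddCircle, ℂ)) :
    Tendsto (fun k : ℕ => (∫ x : ℝ, φ ((1 * x : ℝ) : AddCircle (2 : ℝ)) *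
      g (((k.factorial : ℝ) * x : ℝ) : UnitAddCircle) ∂μ) -
      (∫ x : ℝ, φ ((1 * x : ℝ) : AddCircle (2 : ℝ)) ∂μ) * mean g) atTop (𝓝 0) := by
  have hw : Continuous fun x : ℝ => φ ((1 * x : ℝ) : AddCircle (2 : ℝ)) :=
    φ.continuous.comp (continuous_coe_mul 2 1)
  set J := ∫ x : ℝ, φ ((1 * x : ℝ) : AddCircle (2 : ℝ)) ∂μ with hJ
  refine tendsto_of_fourier atTop
    (fun k : ℕ => Lmap μ _ hw ‖φ‖ (fun x => φ.norm_coe_le_norm _) (k.factorial : ℝ) - J • mean)
    (‖φ‖ * μ.real univ + ‖J‖) (by positivity) (fun k f => ?_) (fun n => ?_) g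
  · rw [LinearMap.sub_apply, LinearMap.smul_apply, smul_eq_mul, add_mul]
    refine (norm_sub_le _ _).trans (add_le_add (Lmap_bound _ _ _ _ _ _ _) ?_)
    rw [norm_mul]
    exact mul_le_mul_of_nonneg_left (mean_bound f) (norm_nonneg _)
  · simp only [LinearMap.sub_apply, LinearMap.smul_apply, smul_eq_mul, Lmap_apply]
    by_cases hn : n = 0
    · subst hn
      simp only [mean_fourier_zero, fourier_zero, mul_one, hJ, sub_self]
      exact tendsto_const_nhds
    · simp only [mean_fourier hn, mul_zero, sub_zero]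
      have hfac : Tendsto (fun k : ℕ => (k.factorial : ℝ)) atTop atTop :=
        tendsto_natCast_atTop_atTop.comp (tendsto_atTop_mono Nat.self_le_factorial tendsto_id)
      have ht : Tendsto (fun k : ℕ => -(n : ℝ) * (k.factorial : ℝ)) atTop (cocompact ℝ) := by
        have h1 : Tendsto (fun y : ℝ => -(n : ℝ) * y) (cocompact ℝ) (cocompact ℝ) :=
          (Homeomorph.mulLeft₀ (-(n : ℝ))
            (by simpa using hn)).isClosedEmbedding.tendsto_cocompact
        exact h1.comp (hfac.mono_right (by rw [cocompact_eq_atBot_atTop]; exact le_sup_right))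
      refine ((step1 μ hμ φ).comp ht).congr fun k => ?_
      simp only [Function.comp, fourier_coe_apply]
      congr 1; ext x
      rw [mul_comm]
      congr 2
      push_cast
      ring

/-- the bump `max 0 (r - ‖z - c‖)` on a circle -/
noncomputable def bump {T : ℝ} (c : AddCircle T) (r : ℝ) : C(AddCircle T, ℂ) where
  toFun z := ((max 0 (r - ‖z - c‖) : ℝ) : ℂ)
  continuous_toFun := by fun_prop

lemma mean_bump_ne {r : ℝ} (hr : 0 < r) : mean (bump 0 r) ≠ 0 := by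
  change ∫ y : UnitAddCircle, ((max 0 (r - ‖y - 0‖) : ℝ) : ℂ) ∂AddCircle.haarAddCircle ≠ 0
  rw [integral_complex_ofReal]
  have : 0 < ∫ y : UnitAddCircle, max 0 (r - ‖y - 0‖) ∂AddCircle.haarAddCircle :=
    Continuous.integral_pos_of_hasCompactSupport_nonneg_nonzero (x := 0) (by fun_prop)
      (HasCompactSupport.of_compactSpace _) (fun y => le_max_left _ _) (by simp [hr.ne', hr.le])
  exact_mod_cast this.ne'

lemma bump_two {t x : ℝ} (hx : x ∈ Icc (0 : ℝ) 1) :
    bump ((1 : ℝ) : AddCircle (2 : ℝ)) (1 - t) ((1 * x : ℝ) : AddCircle (2 : ℝ)) =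
      ((max 0 (x - t) : ℝ) : ℂ) := by
  change ((max 0 ((1 - t) - ‖((1 * x : ℝ) : AddCircle (2 : ℝ)) - ((1 : ℝ) : AddCircle (2 : ℝ))‖) : ℝ) : ℂ) = _
  rw [← AddCircle.coe_sub, (AddCircle.norm_coe_eq_abs_iff 2 two_ne_zero).mpr
    (by rw [abs_two, abs_le]; constructor <;> linarith [hx.1, hx.2]),
    abs_of_nonpos (by linarith [hx.2])]
  congr 2
  ring

lemma ae_le (μ : Measure ℝ) [IsFiniteMeasure μ] (hK : ∀ᵐ x ∂μ, x ∈ K)
    (hμ : Tendsto (fun ξ : ℝ => ∫ x : ℝ, cexp (-(2 * π * I * x * ξ)) ∂μ) (cocompact ℝ) (𝓝 0))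
    {t : ℝ} (ht : 0 < t) : ∀ᵐ x ∂μ, x ≤ t := by
  have h := step2 μ hμ (bump ((1 : ℝ) : AddCircle (2 : ℝ)) (1 - t)) (bump 0 (t / 2))
  set J := ∫ x : ℝ, bump ((1 : ℝ) : AddCircle (2 : ℝ)) (1 - t)
    ((1 * x : ℝ) : AddCircle (2 : ℝ)) ∂μ with hJ
  have hev : ∀ᶠ k : ℕ in atTop, (∫ x : ℝ, bump ((1 : ℝ) : AddCircle (2 : ℝ)) (1 - t)
      ((1 * x : ℝ) : AddCircle (2 : ℝ)) *
      bump 0 (t / 2) (((k.factorial : ℝ) * x : ℝ) : UnitAddCircle) ∂μ) -
      J * mean (bump 0 (t / 2)) = -(J * mean (bump 0 (t / 2))) := by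
    filter_upwards [(tendsto_one_div_add_atTop_nhds_zero_nat (𝕜 := ℝ)).eventually
      (ge_mem_nhds (show (0 : ℝ) < t / 2 by positivity))] with k hk
    rw [integral_eq_zero_of_ae, zero_sub]
    filter_upwards [hK] with x hx
    rw [bump_two hx.1]
    rcases le_or_gt x t with h1 | h1
    · simp [h1]
    · have h2 := hx.2 k
      have h3 : bump 0 (t / 2) (((k.factorial : ℝ) * x : ℝ) : UnitAddCircle) = 0 := by
        change ((max 0 (t / 2 - ‖(((k.factorial : ℝ) * x : ℝ) : UnitAddCircle) - 0‖) : ℝ) : ℂ) = 0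
        rw [sub_zero, max_eq_left (by linarith)]
        simp
      rw [h3]; simp
  have h0 : -(J * mean (bump 0 (t / 2))) = 0 :=
    tendsto_nhds_unique (tendsto_const_nhds.congr' (hev.mono fun k hk => hk.symm)) h
  have hJ0 : J = 0 := by
    simpa [mean_bump_ne (show 0 < t / 2 by positivity)] using h0
  have hJ1 : J = ((∫ x : ℝ, max 0 (x - t) ∂μ : ℝ) : ℂ) := by
    rw [hJ, ← integral_complex_ofReal]
    apply integral_congr_ae
    filter_upwards [hK] with x hx
    exact bump_two hx.1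
  have hint : Integrable (fun x : ℝ => max 0 (x - t)) μ := by
    refine Integrable.of_bound (by fun_prop : Continuous _).aestronglyMeasurable 1 ?_
    filter_upwards [hK] with x hx
    rw [Real.norm_eq_abs, abs_of_nonneg (le_max_left _ _)]
    exact max_le zero_le_one (by linarith [hx.1.2])
  have hz : ∫ x : ℝ, max 0 (x - t) ∂μ = 0 := by
    rw [hJ1] at hJ0; exact_mod_cast hJ0
  have hz' := (integral_eq_zero_iff_of_nonneg (f := fun x : ℝ => max 0 (x - t))
    (fun x => le_max_left _ _) hint).mp hz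
  filter_upwards [hz'] with x hx
  have : x - t ≤ 0 := (le_max_right _ _).trans (le_of_eq hx)
  linarith

theorem no_decay (μ : Measure ℝ) [IsFiniteMeasure μ] (hK : ∀ᵐ x ∂μ, x ∈ K)
    (hμ : Tendsto (fun ξ : ℝ => ∫ x : ℝ, cexp (-(2 * π * I * x * ξ)) ∂μ) (cocompact ℝ) (𝓝 0)) :
    μ = 0 := by
  have h1 : ∀ᵐ x ∂μ, ∀ n : ℕ, x ≤ 1 / ((n : ℝ) + 1) :=
    ae_all_iff.mpr fun n => ae_le μ hK hμ (by positivity)
  have h2 : ∀ᵐ x ∂μ, x = 0 := by
    filter_upwards [h1, hK] with x hx hx'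
    exact le_antisymm (ge_of_tendsto' (tendsto_one_div_add_atTop_nhds_zero_nat (𝕜 := ℝ)) hx)
      hx'.1.1
  have h3 : ∀ ξ : ℝ, ∫ x : ℝ, cexp (-(2 * π * I * x * ξ)) ∂μ = (μ.real univ : ℂ) := by
    intro ξ
    rw [integral_congr_ae (g := fun _ => (1 : ℂ))]
    · simp
    · filter_upwards [h2] with x hx
      simp [hx]
  simp only [h3] at hμ
  have h4 : (μ.real univ : ℂ) = 0 := tendsto_nhds_unique tendsto_const_nhds hμ
  have h5 : μ.real univ = 0 := by exact_mod_cast h4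
  rw [measureReal_eq_zero_iff] at h5
  exact Measure.measure_univ_eq_zero.mp h5

end Pool.Agent.MP_701998_an.H41
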